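import Mathlib

/-!
# Vertex-centroid moves carry every polygon to a regular polygon

A polygon with `n` vertices is a map `v : Fin n → ℂ` (the plane is `ℂ`; indices are cyclic, `i + 1`
is the next index). A vertex-centroid move replaces one vertex `v i`, different from the vertex
centroid `m`, by an arbitrary point of the line through `v i` and `m`.

For every `n ≥ 3` any `n`-tuple of points which are not all on one line can be carried by finitely
many moves to any other such `n`-tuple; in particular every simple polygon can be carried to every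
regular `n`-gon.

Idea: let `o` be the centroid of the vertices other than `v i` and `v j`, and `v i = o + α`,
`v j = o + β`. The moves of these two vertices act on `(α, β)` by the matrices
`(λ, (1 - λ) c; 0, 1)` and `(1, 0; (1 - μ) c, μ)` with `c = 1 / (n - 1)`, which generate `GL₂(ℝ)`.
-/

set_option autoImplicit false

namespace Pool.Agent.Results.MP_06c496_co.AllPolygons

open Finset Relation

/-- The vertex centroid of the polygon `v`. -/
noncomputable def centroid {n : ℕ} (v : Fin n → ℂ) : ℂ := (∑ i, v i) / (n : ℂ)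

/-- A vertex-centroid move: one vertex `v i`, different from the vertex centroid, is replaced by
any point of the line through `v i` and the vertex centroid. -/
def Move {n : ℕ} (v v' : Fin n → ℂ) : Prop :=
  ∃ (i : Fin n) (t : ℝ), v i ≠ centroid v ∧
    v' = Function.update v i (centroid v + (t : ℂ) * (v i - centroid v))

/-- `w` can be obtained from `v` by a finite sequence of moves. -/
def Reach {n : ℕ} (v w : Fin n → ℂ) : Prop := ReflTransGen Move v w

/-- The edge of the polygon `v` from the vertex `v i` to the next vertex. -/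
def edge {n : ℕ} [NeZero n] (v : Fin n → ℂ) (i : Fin n) : Set ℂ := segment ℝ (v i) (v (i + 1))

/-- A simple polygon: the vertices are different, consecutive edges have only their common vertex
in common, other pairs of edges are disjoint. -/
def IsSimple {n : ℕ} [NeZero n] (v : Fin n → ℂ) : Prop :=
  Function.Injective v ∧ (∀ i, edge v i ∩ edge v (i + 1) = {v (i + 1)}) ∧
    ∀ i j, j ≠ i → j ≠ i + 1 → i ≠ j + 1 → edge v i ∩ edge v j = ∅

/-- A regular polygon with the centre `o`: its vertices in their cyclic order are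
`o + a ω ^ k` with `a ≠ 0` and `ω = exp (2 π i / n)` (counterclockwise) or
`ω = exp (- 2 π i / n)` (clockwise). -/
def IsRegular {n : ℕ} (v : Fin n → ℂ) : Prop :=
  ∃ o a : ℂ, a ≠ 0 ∧
    ((∀ k : Fin n, v k = o + a * Complex.exp (2 * Real.pi * Complex.I / n) ^ (k : ℕ)) ∨
     (∀ k : Fin n, v k = o + a * Complex.exp (-(2 * Real.pi * Complex.I / n)) ^ (k : ℕ)))

/-! ### The group generated by two one-parameter groups of matrices -/

section matrices

variable {S : Matrix (Fin 2) (Fin 2) ℝ → Prop} {c : ℝ}

lemma transv_aux (hmul : ∀ M N, S M → S N → S (M * N)) (hc0 : 0 < c) (hc : c ≤ 1 / 2)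
    (hA : ∀ l : ℝ, l ≠ 0 → S !![l, (1 - l) * c; 0, 1])
    (hB : ∀ m : ℝ, m ≠ 0 → S !![1, 0; (1 - m) * c, m]) (l p : ℝ) (hl : l ≠ 0) (hp : p ≠ 0) :
    S !![1 + c * ((1 - 1 / p) * (l - 1) * ((1 - 2 * c ^ 2) / (c * (1 - c ^ 2)))),
         -(c * (c * ((1 - 1 / p) * (l - 1) * ((1 - 2 * c ^ 2) / (c * (1 - c ^ 2))))));
         (1 - 1 / p) * (l - 1) * ((1 - 2 * c ^ 2) / (c * (1 - c ^ 2))),
         1 - c * ((1 - 1 / p) * (l - 1) * ((1 - 2 * c ^ 2) / (c * (1 - c ^ 2))))] := by
  have h1 : (1 - c ^ 2) ≠ 0 := by nlinarith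
  have hc0' : c ≠ 0 := hc0.ne'
  have hm0 : -c ^ 2 / (1 - c ^ 2) ≠ 0 := div_ne_zero (neg_ne_zero.2 (pow_ne_zero 2 hc0')) h1
  have hm1 : (1 - c ^ 2) / (-c ^ 2) ≠ 0 := div_ne_zero h1 (neg_ne_zero.2 (pow_ne_zero 2 hc0'))
  have key := hmul _ _ (hmul _ _ (hmul _ _ (hmul _ _ (hmul _ _ (hmul _ _ (hmul _ _
    (hB _ hm1) (hA l hl)) (hB _ hm0)) (hA p hp)) (hB _ hm1)) (hA l⁻¹ (inv_ne_zero hl)))
    (hB _ hm0)) (hA p⁻¹ (inv_ne_zero hp))
  convert key using 1
  ext i j
  fin_cases i <;> fin_cases j <;>
  · simp [Matrix.mul_apply, Fin.sum_univ_two]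
    field_simp
    ring

lemma lower (hmul : ∀ M N, S M → S N → S (M * N)) (hc0 : 0 < c) (hc : c ≤ 1 / 2)
    (hA : ∀ l : ℝ, l ≠ 0 → S !![l, (1 - l) * c; 0, 1])
    (hB : ∀ m : ℝ, m ≠ 0 → S !![1, 0; (1 - m) * c, m]) :
    (∀ t : ℝ, S !![1, 0; t, 1]) ∧ ∀ m : ℝ, m ≠ 0 → S !![1, 0; 0, m] := by
  have h1 : 0 < (1 - c ^ 2) := by nlinarith
  have h2 : 0 < (1 - 2 * c ^ 2) := by nlinarith
  set K : ℝ := (1 - 2 * c ^ 2) / (c * (1 - c ^ 2)) with hK
  have hKpos : 0 < K := by positivity
  -- all transvections `I + s k f`
  have hT : ∀ s : ℝ, S !![1 + c * s, -(c * (c * s)); s, 1 - c * s] := by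
    intro s
    rcases le_total 0 s with hs | hs
    · have := transv_aux hmul hc0 hc hA hB (1 + 2 * s / K) 2 (by positivity) (by norm_num)
      have e : (1 - 1 / (2 : ℝ)) * (1 + 2 * s / K - 1) * K = s := by field_simp; ring
      rw [← hK] at this
      rwa [e] at this
    · have := transv_aux hmul hc0 hc hA hB (1 - s / K) (1 / 2)
        (by have : s / K ≤ 0 := div_nonpos_of_nonpos_of_nonneg hs hKpos.le
            linarith) (by norm_num)
      have e : (1 - 1 / (1 / 2 : ℝ)) * (1 - s / K - 1) * K = s := by field_simp; ring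
      rw [← hK] at this
      rwa [e] at this
  -- the transvections with a parameter at least `-1`
  have hE1 : ∀ t : ℝ, -1 ≤ t → S !![1, 0; t, 1] := by
    intro t ht
    have hd : 0 < 1 - c ^ 2 + t * c := by nlinarith
    set s : ℝ := t / (1 - c ^ 2 + t * c) with hs
    have hcs : 1 - c * s = (1 - c ^ 2) / (1 - c ^ 2 + t * c) := by
      rw [hs, eq_div_iff hd.ne', sub_mul, mul_assoc, div_mul_cancel₀ _ hd.ne']; ring
    have hcs0 : 0 < 1 - c * s := by rw [hcs]; positivity
    have key := hmul _ _ (hmul _ _ (hB (1 / (1 - c * s)) (by positivity))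
      (hA (1 - c * s) hcs0.ne')) (hT s)
    convert key using 1
    have hst : s * (1 - c ^ 2) = t * (1 - c * s) := by
      rw [hcs, hs]; ring
    ext i j
    fin_cases i <;> fin_cases j
    · simp [Matrix.mul_apply, Fin.sum_univ_two]; ring
    · simp [Matrix.mul_apply, Fin.sum_univ_two]; ring
    · simp [Matrix.mul_apply, Fin.sum_univ_two]
      field_simp
      linear_combination -hst
    · simp [Matrix.mul_apply, Fin.sum_univ_two]
      field_simp
      ring
  have hneg : S !![1, 0; 0, -1] := by
    have key := hmul _ _ (hE1 (-(2 * c)) (by linarith)) (hB (-1) (by norm_num))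
    convert key using 1
    ext i j
    fin_cases i <;> fin_cases j <;> simp [Matrix.mul_apply, Fin.sum_univ_two]
    ring
  have hE : ∀ t : ℝ, S !![1, 0; t, 1] := by
    intro t
    rcases le_total (-1) t with ht | ht
    · exact hE1 t ht
    · have key := hmul _ _ (hmul _ _ hneg (hE1 (-t) (by linarith))) hneg
      convert key using 1
      ext i j
      fin_cases i <;> fin_cases j <;> simp [Matrix.mul_apply, Fin.sum_univ_two]
  refine ⟨hE, fun m hm => ?_⟩
  have key := hmul _ _ (hE (-((1 - m) * c))) (hB m hm)
  convert key using 1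
  ext i j
  fin_cases i <;> fin_cases j <;> simp [Matrix.mul_apply, Fin.sum_univ_two]

lemma upper (hmul : ∀ M N, S M → S N → S (M * N)) (hc0 : 0 < c) (hc : c ≤ 1 / 2)
    (hA : ∀ l : ℝ, l ≠ 0 → S !![l, (1 - l) * c; 0, 1])
    (hB : ∀ m : ℝ, m ≠ 0 → S !![1, 0; (1 - m) * c, m]) :
    (∀ t : ℝ, S !![1, t; 0, 1]) ∧ ∀ m : ℝ, m ≠ 0 → S !![m, 0; 0, 1] := by
  have h := lower (S := fun M => S !![M 1 1, M 1 0; M 0 1, M 0 0]) (c := c) ?_ hc0 hc ?_ ?_
  · refine ⟨fun t => ?_, fun m hm => ?_⟩
    · simpa using h.1 t
    · simpa using h.2 m hm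
  · intro M N hM hN
    have := hmul _ _ hM hN
    convert this using 1
    ext i j
    fin_cases i <;> fin_cases j <;> simp [Matrix.mul_apply, Fin.sum_univ_two] <;> ring
  · intro l hl
    simpa using hB l hl
  · intro l hl
    simpa using hA l hl

end matrices

/-! ### Moves of two vertices -/

section pair

variable {n : ℕ}

lemma Reach.refl (v : Fin n → ℂ) : Reach v v := ReflTransGen.refl

lemma Reach.trans {u v w : Fin n → ℂ} (h1 : Reach u v) (h2 : Reach v w) : Reach u w :=
  ReflTransGen.trans h1 h2

/-- One move of the vertex `i`, in terms of the centroid of the other vertices. -/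
lemma reach_single (hn : 3 ≤ n) (v : Fin n → ℂ) (i : Fin n) (l : ℝ) (ci : ℂ)
    (hci : ∑ k, v k = v i + (n - 1) * ci) :
    Reach v (Function.update v i (ci + l * (v i - ci))) := by
  have hn0 : (n : ℂ) ≠ 0 := by
    have : n ≠ 0 := by omega
    exact_mod_cast this
  have hn1 : (n : ℂ) - 1 ≠ 0 := by
    have : (n : ℂ) ≠ 1 := by
      have : n ≠ 1 := by omega
      exact_mod_cast this
    exact sub_ne_zero.2 this
  have hm : centroid v = ci + (v i - ci) / n := by
    unfold centroid
    rw [hci]
    field_simp
    ring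
  by_cases h : v i = centroid v
  · have : v i = ci := by
      rw [hm] at h
      have h2 : (v i - ci) * (n - 1) = 0 := by
        have h3 : (v i - ci) = (v i - ci) / n := by
          linear_combination h
        have h4 : (v i - ci) * n = (v i - ci) := by
          rw [eq_div_iff hn0] at h3
          exact h3
        linear_combination h4
      rcases mul_eq_zero.1 h2 with h3 | h3
      · exact sub_eq_zero.1 h3
      · exact absurd h3 hn1
    have h2 : ci + (l : ℂ) * (v i - ci) = v i := by rw [this]; ring
    rw [h2, Function.update_eq_self]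
    exact Reach.refl v
  · refine ReflTransGen.single ⟨i, ((n : ℝ) * l - 1) / ((n : ℝ) - 1), h, ?_⟩
    congr 1
    rw [hm]
    push_cast
    field_simp
    ring

/-- The configuration in which the vertices `i` and `j` are at `o + α` and `o + β`. -/
noncomputable def conf (v : Fin n → ℂ) (i j : Fin n) (o α β : ℂ) : Fin n → ℂ :=
  Function.update (Function.update v i (o + α)) j (o + β)

lemma sum_conf (v : Fin n → ℂ) {i j : Fin n} (hij : i ≠ j) {o : ℂ}
    (ho : ∑ k, v k = v i + v j + (n - 2) * o) (α β : ℂ) :
    ∑ k, conf v i j o α β k = n * o + α + β := by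
  unfold conf
  rw [Finset.sum_update_of_mem (Finset.mem_univ j)]
  have h1 : ∑ x ∈ univ \ {j}, Function.update v i (o + α) x
      = (o + α) + ∑ x ∈ (univ \ {j}) \ {i}, v x := by
    rw [Finset.sum_update_of_mem]
    simp [hij]
  have h2 : ∑ k, v k = v j + (v i + ∑ x ∈ (univ \ {j}) \ {i}, v x) := by
    rw [← Finset.sum_sdiff (Finset.subset_univ {j}), Finset.sum_singleton,
      ← Finset.sum_sdiff (s₁ := {i}) (s₂ := univ \ {j}) (by simp [hij]), Finset.sum_singleton]
    ring
  rw [h1]
  rw [ho] at h2
  linear_combination -h2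

lemma reach_pair (hn : 3 ≤ n) (v : Fin n → ℂ) {i j : Fin n} (hij : i ≠ j) {o : ℂ}
    (ho : ∑ k, v k = v i + v j + (n - 2) * o) :
    (∀ (t : ℝ) (α β : ℂ), Reach (conf v i j o α β) (conf v i j o (α + t * β) β)) ∧
    ∀ m : ℝ, m ≠ 0 → ∀ α β : ℂ, Reach (conf v i j o α β) (conf v i j o (m * α) β) := by
  have hn1' : (0 : ℝ) < (n : ℝ) - 1 := by
    have : (3 : ℝ) ≤ n := by exact_mod_cast hn
    linarith
  have hn1 : (n : ℂ) - 1 ≠ 0 := by
    have := hn1'.ne'
    exact_mod_cast this
  have key := upper
    (S := fun M => ∀ α β : ℂ, Reach (conf v i j o α β)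
      (conf v i j o ((M 0 0 : ℂ) * α + (M 0 1 : ℂ) * β) ((M 1 0 : ℂ) * α + (M 1 1 : ℂ) * β)))
    (c := 1 / ((n : ℝ) - 1)) ?_ ?_ ?_ ?_ ?_
  · refine ⟨fun t α β => ?_, fun m hm α β => ?_⟩
    · simpa using key.1 t α β
    · simpa using key.2 m hm α β
  · intro M N hM hN α β
    refine (hN α β).trans ?_
    convert hM _ _ using 2
    · simp [Matrix.mul_apply, Fin.sum_univ_two]; ring
    · simp [Matrix.mul_apply, Fin.sum_univ_two]; ring
  · positivity
  · rw [div_le_div_iff₀ hn1' (by norm_num)]
    have : (3 : ℝ) ≤ n := by exact_mod_cast hn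
    linarith
  · intro l hl α β
    have hs := sum_conf v hij ho α β
    have hi : conf v i j o α β i = o + α := by
      unfold conf
      rw [Function.update_of_ne hij, Function.update_self]
    have := reach_single hn (conf v i j o α β) i l (o + β / (n - 1)) (by
      rw [hs, hi]
      field_simp
      ring)
    convert this using 1
    rw [hi]
    unfold conf
    rw [Function.update_comm hij.symm, Function.update_idem]
    congr 2
    · simp
      field_simp
      ring
    · simp
  · intro l hl α β
    have hs := sum_conf v hij ho α β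
    have hj : conf v i j o α β j = o + β := by
      unfold conf
      rw [Function.update_self]
    have := reach_single hn (conf v i j o α β) j l (o + α / (n - 1)) (by
      rw [hs, hj]
      field_simp
      ring)
    convert this using 1
    rw [hj]
    unfold conf
    rw [Function.update_idem]
    congr 1
    · simp
    · simp
      field_simp
      ring

end pair

/-! ### Changing one vertex arbitrarily -/

section change

variable {n : ℕ}

/-- The determinant of two vectors. -/
def det2 (a b : ℂ) : ℝ := a.re * b.im - a.im * b.re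

lemma cramer {e f : ℂ} (h : det2 e f ≠ 0) (z : ℂ) : ∃ a b : ℝ, z = a * e + b * f := by
  unfold det2 at h
  refine ⟨det2 z f / det2 e f, det2 e z / det2 e f, ?_⟩
  unfold det2
  apply Complex.ext
  · rw [Complex.add_re, Complex.re_ofReal_mul, Complex.re_ofReal_mul, div_mul_eq_mul_div,
      div_mul_eq_mul_div, ← add_div, eq_div_iff h]
    ring
  · rw [Complex.add_im, Complex.im_ofReal_mul, Complex.im_ofReal_mul, div_mul_eq_mul_div,
      div_mul_eq_mul_div, ← add_div, eq_div_iff h]
    ring

lemma parallel {e f : ℂ} (he : e ≠ 0) (h : det2 e f = 0) : ∃ r : ℝ, f = r * e := by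
  unfold det2 at h
  have hN : e.re ^ 2 + e.im ^ 2 ≠ 0 := by
    intro h0
    apply he
    have h1 : e.re = 0 := by nlinarith [sq_nonneg e.re, sq_nonneg e.im]
    have h2 : e.im = 0 := by nlinarith [sq_nonneg e.re, sq_nonneg e.im]
    exact Complex.ext h1 h2
  refine ⟨(e.re * f.re + e.im * f.im) / (e.re ^ 2 + e.im ^ 2), ?_⟩
  apply Complex.ext
  · rw [Complex.re_ofReal_mul]
    field_simp
    linear_combination (-e.im) * h
  · rw [Complex.im_ofReal_mul]
    field_simp
    linear_combination (e.re) * h

/-- Some three vertices are not on a line. -/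
def G (v : Fin n → ℂ) : Prop := ∃ a b c, det2 (v b - v a) (v c - v a) ≠ 0

lemma not_G_of_line {v : Fin n → ℂ} (o e : ℂ) (r : Fin n → ℝ) (h : ∀ k, v k = o + r k * e) :
    ¬ G v := by
  rintro ⟨a, b, c, habc⟩
  apply habc
  rw [h a, h b, h c]
  unfold det2
  simp
  ring

lemma sum_update_others (v : Fin n → ℂ) (i : Fin n) (x : ℂ) {ci : ℂ}
    (hci : ∑ k, v k = v i + (n - 1) * ci) :
    ∑ k, Function.update v i x k = x + (n - 1) * ci := by
  rw [Finset.sum_update_of_mem (Finset.mem_univ i)]
  have h2 : ∑ k, v k = v i + ∑ x ∈ univ \ {i}, v x := by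
    rw [← Finset.sum_sdiff (Finset.subset_univ {i}), Finset.sum_singleton]
    ring
  rw [hci] at h2
  linear_combination -h2

lemma reach_add (hn : 3 ≤ n) (v : Fin n → ℂ) {i j : Fin n} (hij : i ≠ j) {ci : ℂ}
    (hci : ∑ k, v k = v i + (n - 1) * ci) (x : ℂ) (t : ℝ) :
    Reach (Function.update v i x) (Function.update v i (x + t * (v j - ci))) := by
  have hn1' : (0 : ℝ) < (n : ℝ) - 1 := by
    have : (3 : ℝ) ≤ n := by exact_mod_cast hn
    linarith
  have hn2' : (0 : ℝ) < (n : ℝ) - 2 := by
    have : (3 : ℝ) ≤ n := by exact_mod_cast hn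
    linarith
  have hn1 : (n : ℂ) - 1 ≠ 0 := by
    have := hn1'.ne'
    exact_mod_cast this
  have hn2 : (n : ℂ) - 2 ≠ 0 := by
    have := hn2'.ne'
    exact_mod_cast this
  set w := Function.update v i x with hw
  have hwi : w i = x := by rw [hw, Function.update_self]
  have hwj : w j = v j := by rw [hw, Function.update_of_ne hij.symm]
  have hsum : ∑ k, w k = x + (n - 1) * ci := sum_update_others v i x hci
  set o : ℂ := ((n - 1) * ci - v j) / (n - 2) with ho
  have ho' : ∑ k, w k = w i + w j + (n - 2) * o := by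
    rw [hsum, hwi, hwj, ho]
    field_simp
    ring
  have key := (reach_pair hn w hij ho').1 (t * ((n - 2) / (n - 1))) (x - o) (v j - o)
  have e1 : conf w i j o (x - o) (v j - o) = w := by
    unfold conf
    rw [show o + (x - o) = w i by rw [hwi]; ring, Function.update_eq_self,
      show o + (v j - o) = w j by rw [hwj]; ring, Function.update_eq_self]
  have e2 : conf w i j o (x - o + ((t * ((n - 2) / (n - 1)) : ℝ) : ℂ) * (v j - o)) (v j - o) =
      Function.update v i (x + t * (v j - ci)) := by
    unfold conf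
    rw [Function.update_comm hij, show o + (v j - o) = w j by rw [hwj]; ring,
      Function.update_eq_self, hw, Function.update_idem]
    congr 1
    rw [ho]
    push_cast
    field_simp
    ring
  rw [e1, e2] at key
  exact key

/-- If the vertices are not all on a line, one vertex can be replaced by any point. -/
lemma change (hn : 3 ≤ n) {v : Fin n → ℂ} (hG : G v) (i : Fin n) (p : ℂ) :
    Reach v (Function.update v i p) := by
  have hn1 : (n : ℂ) - 1 ≠ 0 := by
    have h3 : (3 : ℝ) ≤ n := by exact_mod_cast hn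
    have : (n : ℝ) - 1 ≠ 0 := by linarith
    exact_mod_cast this
  set ci : ℂ := (∑ k, v k - v i) / (n - 1) with hcidef
  have hci : ∑ k, v k = v i + (n - 1) * ci := by
    rw [hcidef]; field_simp; ring
  by_cases h : ∃ j k, j ≠ i ∧ k ≠ i ∧ det2 (v j - ci) (v k - ci) ≠ 0
  · obtain ⟨j, k, hj, hk, hd⟩ := h
    obtain ⟨a, b, hab⟩ := cramer hd (p - v i)
    have h1 := reach_add hn v hj.symm hci (v i) a
    have h2 := reach_add hn v hk.symm hci (v i + a * (v j - ci)) b
    rw [Function.update_eq_self] at h1
    have h3 := h1.trans h2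
    rwa [show v i + a * (v j - ci) + b * (v k - ci) = p by linear_combination -hab] at h3
  · push Not at h
    have hex : ∃ j, j ≠ i ∧ v j - ci ≠ 0 := by
      by_contra hcon
      push Not at hcon
      refine not_G_of_line ci (v i - ci) (fun k => if k = i then 1 else 0) ?_ hG
      intro k
      by_cases hk : k = i
      · subst hk; simp
      · simp [hk, sub_eq_zero.1 (hcon k hk)]
    obtain ⟨j, hj, hje⟩ := hex
    have hd : det2 (v j - ci) (v i - ci) ≠ 0 := by
      intro h0
      have hall : ∀ k, ∃ r : ℝ, v k - ci = r * (v j - ci) := by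
        intro k
        by_cases hk : k = i
        · subst hk; exact parallel hje h0
        · exact parallel hje (h j k hj hk)
      choose r hr using hall
      refine not_G_of_line ci (v j - ci) r ?_ hG
      intro k
      rw [← hr k]; ring
    obtain ⟨a, b, hab⟩ := cramer hd (p - ci)
    have h1 := reach_single hn v i b ci hci
    have h2 := reach_add hn v hj.symm hci (ci + b * (v i - ci)) a
    have h3 := h1.trans h2
    rwa [show ci + b * (v i - ci) + a * (v j - ci) = p by linear_combination -hab] at h3

/-- One vertex is changed; before and after the vertices are not all on a line. -/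
def C (x y : Fin n → ℂ) : Prop := G x ∧ G y ∧ ∃ i p, y = Function.update x i p

lemma C_symm {x y : Fin n → ℂ} (h : C x y) : C y x := by
  obtain ⟨h1, h2, i, p, rfl⟩ := h
  exact ⟨h2, h1, i, x i, by simp⟩

lemma chain_symm {x y : Fin n → ℂ} (h : ReflTransGen C x y) : ReflTransGen C y x := by
  induction h with
  | refl => exact ReflTransGen.refl
  | tail _ h2 ih => exact ReflTransGen.head (C_symm h2) ih

lemma reach_of_chain (hn : 3 ≤ n) {x y : Fin n → ℂ} (h : ReflTransGen C x y) : Reach x y := by
  induction h with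
  | refl => exact Reach.refl _
  | tail _ h2 ih =>
    obtain ⟨h3, -, i, p, rfl⟩ := h2
    exact ih.trans (change hn h3 i p)

lemma mid {F H : ℂ → ℝ} (hF : ∀ x y, F ((x + y) / 2) = (F x + F y) / 2)
    (hH : ∀ x y, H ((x + y) / 2) = (H x + H y) / 2) {x y : ℂ} (hx : F x ≠ 0) (hy : H y ≠ 0) :
    ∃ z, F z ≠ 0 ∧ H z ≠ 0 := by
  by_cases h1 : H x = 0
  · by_cases h2 : F y = 0
    · refine ⟨(x + y) / 2, ?_, ?_⟩
      · rw [hF, h2]
        intro h; apply hx; linarith
      · rw [hH, h1]
        intro h; apply hy; linarith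
    · exact ⟨y, h2, hy⟩
  · exact ⟨x, hx, h1⟩

lemma chain_to (v u : Fin n → ℂ)
    (hu : ∀ a b c : Fin n, a ≠ b → a ≠ c → b ≠ c → det2 (u b - u a) (u c - u a) ≠ 0)
    (hv : G v) : ReflTransGen C v u := by
  obtain ⟨a, b, c, h⟩ := hv
  have hab : a ≠ b := by
    rintro rfl
    apply h; simp [det2]
  have hac : a ≠ c := by
    rintro rfl
    apply h; simp [det2]
  have hbc : b ≠ c := by
    rintro rfl
    apply h; simp only [det2]; ring
  have hu' := hu a b c hab hac hbc
  obtain ⟨q, hq1, hq2⟩ := mid (F := fun q => det2 (v b - q) (v c - q))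
    (H := fun q => det2 (u b - q) (u c - q))
    (by intro x y; simp [det2]; ring) (by intro x y; simp [det2]; ring) h hu'
  obtain ⟨s, hs1, hs2⟩ := mid (F := fun s => det2 (s - q) (v c - q))
    (H := fun s => det2 (s - q) (u c - q))
    (by intro x y; simp [det2]; ring) (by intro x y; simp [det2]; ring) hq1 hq2
  have step : ∀ (x : Fin n → ℂ) (i : Fin n) (p : ℂ),
      det2 (x b - x a) (x c - x a) ≠ 0 →
      det2 (Function.update x i p b - Function.update x i p a)
        (Function.update x i p c - Function.update x i p a) ≠ 0 →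
      C x (Function.update x i p) := fun x i p h1 h2 => ⟨⟨a, b, c, h1⟩, ⟨a, b, c, h2⟩, i, p, rfl⟩
  have s1 := step v a q h (by simpa [hab.symm, hac.symm] using hq1)
  have s2 := step (Function.update v a q) b s (by simpa [hab.symm, hac.symm] using hq1)
    (by simpa [hab, hac.symm, hbc.symm] using hs1)
  have s3 := step (Function.update (Function.update v a q) b s) c (u c)
    (by simpa [hab, hac.symm, hbc.symm] using hs1) (by simpa [hab, hac, hbc] using hs2)
  have s4 := step (Function.update (Function.update (Function.update v a q) b s) c (u c)) b (u b)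
    (by simpa [hab, hac, hbc] using hs2)
    (by simpa [hab, hac, hbc, hbc.symm] using hq2)
  set x4 := Function.update (Function.update (Function.update (Function.update v a q) b s)
    c (u c)) b (u b) with hx4
  have x4b : x4 b = u b := by simp [hx4]
  have x4c : x4 c = u c := by simp [hx4, hbc.symm]
  have x4a : x4 a = q := by simp [hx4, hab, hac]
  have s5 := step x4 a (u a) (by rw [x4a, x4b, x4c]; exact hq2)
    (by simpa [hab.symm, hac.symm, x4b, x4c] using hu')
  set x5 := Function.update x4 a (u a) with hx5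
  have x5a : x5 a = u a := by simp [hx5]
  have x5b : x5 b = u b := by simp [hx5, hab.symm, x4b]
  have x5c : x5 c = u c := by simp [hx5, hac.symm, x4c]
  have hT : ∀ T : Finset (Fin n), ReflTransGen C x5 (fun i => if i ∈ T then u i else x5 i) := by
    intro T
    induction T using Finset.induction_on with
    | empty => simp only [Finset.notMem_empty, if_false]; exact ReflTransGen.refl
    | insert i T hi ih =>
      refine ih.tail ⟨⟨a, b, c, ?_⟩, ⟨a, b, c, ?_⟩, i, u i, ?_⟩
      · simpa [x5a, x5b, x5c] using hu'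
      · simpa [x5a, x5b, x5c] using hu'
      · funext k
        by_cases hk : k = i
        · subst hk; simp
        · simp [Finset.mem_insert, hk]
  have hlast := hT Finset.univ
  simp only [Finset.mem_univ, if_true] at hlast
  exact (((((ReflTransGen.single s1).tail s2).tail s3).tail s4).tail s5).trans hlast

lemma reach_of_G (hn : 3 ≤ n) {v w : Fin n → ℂ} (hv : G v) (hw : G w) : Reach v w := by
  set u : Fin n → ℂ := fun k => ((k : ℕ) : ℂ) + ((k : ℕ) : ℂ) ^ 2 * Complex.I with hu
  have hu' : ∀ a b c : Fin n, a ≠ b → a ≠ c → b ≠ c → det2 (u b - u a) (u c - u a) ≠ 0 := by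
    intro a b c hab hac hbc
    have hab' : ((b : ℕ) : ℝ) - ((a : ℕ) : ℝ) ≠ 0 := by
      rw [sub_ne_zero]
      intro h
      apply hab
      ext
      exact_mod_cast h.symm
    have hac' : ((c : ℕ) : ℝ) - ((a : ℕ) : ℝ) ≠ 0 := by
      rw [sub_ne_zero]
      intro h
      apply hac
      ext
      exact_mod_cast h.symm
    have hbc' : ((c : ℕ) : ℝ) - ((b : ℕ) : ℝ) ≠ 0 := by
      rw [sub_ne_zero]
      intro h
      apply hbc
      ext
      exact_mod_cast h.symm
    have hre : ∀ k : Fin n, (u k).re = ((k : ℕ) : ℝ) := by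
      intro k
      simp [hu, pow_two]
    have him : ∀ k : Fin n, (u k).im = ((k : ℕ) : ℝ) ^ 2 := by
      intro k
      simp [hu, pow_two]
    have : det2 (u b - u a) (u c - u a) =
        (((b : ℕ) : ℝ) - ((a : ℕ) : ℝ)) * (((c : ℕ) : ℝ) - ((a : ℕ) : ℝ)) *
          (((c : ℕ) : ℝ) - ((b : ℕ) : ℝ)) := by
      unfold det2
      rw [Complex.sub_re, Complex.sub_im, Complex.sub_re, Complex.sub_im, hre, hre, hre, him,
        him, him]
      ring
    rw [this]
    exact mul_ne_zero (mul_ne_zero hab' hac') hbc'
  exact reach_of_chain hn ((chain_to v u hu' hv).trans (chain_symm (chain_to w u hu' hw)))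

lemma reach_of_ne (hn : 3 ≤ n) {v w : Fin n → ℂ} (hv : G v) {a b : Fin n} (hab : w a ≠ w b) :
    Reach v w := by
  obtain ⟨i, hia, hib⟩ : ∃ i : Fin n, i ≠ a ∧ i ≠ b := by
    have hcard : ({a, b} : Finset (Fin n)).card < (Finset.univ : Finset (Fin n)).card := by
      have := Finset.card_le_two (a := a) (b := b)
      rw [Finset.card_univ, Fintype.card_fin]
      omega
    obtain ⟨i, -, hi⟩ := Finset.exists_mem_notMem_of_card_lt_card hcard
    simp only [Finset.mem_insert, Finset.mem_singleton, not_or] at hi
    exact ⟨i, hi.1, hi.2⟩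
  set q : ℂ := w a + Complex.I * (w b - w a) with hq
  have hG : G (Function.update w i q) := by
    refine ⟨a, b, i, ?_⟩
    rw [Function.update_self, Function.update_of_ne hia.symm, Function.update_of_ne hib.symm, hq]
    unfold det2
    simp only [Complex.sub_re, Complex.sub_im, Complex.add_re, Complex.add_im, Complex.mul_re,
      Complex.mul_im, Complex.I_re, Complex.I_im]
    intro h0
    apply hab
    have h1 : ((w b).re - (w a).re) ^ 2 + ((w b).im - (w a).im) ^ 2 = 0 := by
      linear_combination h0
    apply Complex.ext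
    · nlinarith [sq_nonneg ((w b).re - (w a).re), sq_nonneg ((w b).im - (w a).im)]
    · nlinarith [sq_nonneg ((w b).re - (w a).re), sq_nonneg ((w b).im - (w a).im)]
  have h1 := reach_of_G hn hv hG
  have h2 := change hn hG i (w i)
  rw [Function.update_idem, Function.update_eq_self] at h2
  exact h1.trans h2

/-- Every `n`-tuple of points can be reached from `v`, if `v` is not contained in a line. -/
lemma reach_all (hn : 3 ≤ n) {v : Fin n → ℂ} (hv : G v) (w : Fin n → ℂ) : Reach v w := by
  by_cases h : ∃ a b, w a ≠ w b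
  · obtain ⟨a, b, hab⟩ := h
    exact reach_of_ne hn hv hab
  · push Not at h
    set a : Fin n := ⟨0, by omega⟩ with ha
    set b : Fin n := ⟨1, by omega⟩ with hb
    have hab : a ≠ b := by
      rw [ha, hb]; simp
    have h1 : Reach v (Function.update w a (w a + 1)) := by
      apply reach_of_ne hn hv (a := a) (b := b)
      rw [Function.update_self, Function.update_of_ne hab.symm, h b a]
      simp
    have hs : ∑ k, w k = w a + (n - 1) * w a := by
      rw [Finset.sum_congr rfl (fun k _ => h k a)]
      simp
      ring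
    have h2 := reach_single hn (Function.update w a (w a + 1)) a 0 (w a) (by
      rw [sum_update_others w a (w a + 1) hs, Function.update_self])
    simp only [Complex.ofReal_zero, zero_mul, add_zero, Function.update_idem,
      Function.update_eq_self] at h2
    exact h1.trans h2

end change

/-! ### Simple polygons and regular polygons -/

section final

variable {n : ℕ}

lemma G_of_not_collinear {v : Fin n → ℂ} (h : ¬ Collinear ℝ (Set.range v)) : G v := by
  by_contra hG
  unfold G at hG
  push Not at hG
  apply h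
  by_cases hc : ∃ a b, v a ≠ v b
  · obtain ⟨a, b, hab⟩ := hc
    rw [collinear_iff_of_mem (Set.mem_range_self a)]
    refine ⟨v b - v a, ?_⟩
    rintro _ ⟨k, rfl⟩
    obtain ⟨r, hr⟩ := parallel (sub_ne_zero.2 hab.symm) (hG a b k)
    refine ⟨r, ?_⟩
    simp only [vadd_eq_add, Complex.real_smul]
    rw [← hr]; ring
  · push Not at hc
    rcases isEmpty_or_nonempty (Fin n) with he | ⟨⟨a⟩⟩
    · rw [Set.range_eq_empty]
      exact collinear_empty ℝ ℂ
    · have : Set.range v = {v a} := by
        ext z
        constructor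
        · rintro ⟨k, rfl⟩
          exact hc k a
        · rintro rfl
          exact ⟨a, rfl⟩
      rw [this]
      exact collinear_singleton ℝ (v a)

lemma not_collinear_of_simple [NeZero n] (hn : 3 ≤ n) {v : Fin n → ℂ} (hv : IsSimple v) :
    ¬ Collinear ℝ (Set.range v) := by
  intro hcol
  obtain ⟨hinj, hadj, -⟩ := hv
  rw [collinear_iff_exists_forall_eq_smul_vadd] at hcol
  obtain ⟨p₀, e, hpe⟩ := hcol
  have hr' : ∀ k, ∃ r : ℝ, v k = r • e +ᵥ p₀ := fun k => hpe (v k) ⟨k, rfl⟩
  choose r hr using hr'
  have hr2 : ∀ k, v k = p₀ + (r k : ℂ) * e := by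
    intro k
    rw [hr k]
    simp only [vadd_eq_add, Complex.real_smul]
    ring
  have hrinj : Function.Injective r := by
    intro a b hab
    apply hinj
    rw [hr2, hr2, hab]
  obtain ⟨k, -, hk⟩ := Finset.exists_max_image (Finset.univ : Finset (Fin n)) r ⟨0, mem_univ _⟩
  have hk' : ∀ j, r j ≤ r k := fun j => hk j (mem_univ j)
  -- the neighbours of `k`
  have hne1 : k + 1 ≠ k := by
    intro h
    have h1 : (1 : Fin n) = 0 := by
      have := add_left_cancel (h.trans (add_zero k).symm)
      exact this
    have h2 : ((1 : Fin n) : ℕ) = 0 := by rw [h1]; simp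
    rw [Fin.val_one' n, Nat.mod_eq_of_lt (by omega)] at h2
    exact absurd h2 one_ne_zero
  have hne2 : k - 1 ≠ k := by
    intro h
    apply hne1
    have h3 : k - 1 + 1 = k + 1 := by rw [h]
    rw [sub_add_cancel] at h3
    exact h3.symm
  have key : ∀ {x y z : ℝ}, x ≤ y → y ≤ z → ∃ s ∈ Set.Icc (0 : ℝ) 1, y = x + s * (z - x) := by
    intro x y z hxy hyz
    rcases eq_or_lt_of_le (hxy.trans hyz) with h | h
    · exact ⟨0, ⟨le_rfl, zero_le_one⟩, by linarith⟩
    · refine ⟨(y - x) / (z - x), ⟨div_nonneg (by linarith) (by linarith),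
        (div_le_one (by linarith)).2 (by linarith)⟩, ?_⟩
      rw [div_mul_cancel₀ _ (by linarith : z - x ≠ 0)]
      ring
  have hadj' := hadj (k - 1)
  rw [sub_add_cancel] at hadj'
  have hedge1 : edge v (k - 1) = segment ℝ (v (k - 1)) (v k) := by
    unfold edge; rw [sub_add_cancel]
  rcases le_total (r (k - 1)) (r (k + 1)) with h | h
  · -- `v (k + 1)` is on both edges
    obtain ⟨s, hs, hs2⟩ := key h (hk' (k + 1))
    have hmem : v (k + 1) ∈ edge v (k - 1) ∩ edge v k := by
      constructor
      · rw [hedge1, segment_eq_image']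
        refine ⟨s, hs, ?_⟩
        simp only [Complex.real_smul]
        rw [hr2 (k + 1), hr2 (k - 1), hr2 k, hs2]
        push_cast
        ring
      · exact right_mem_segment ℝ _ _
    rw [hadj'] at hmem
    exact hne1 (hinj hmem)
  · obtain ⟨s, hs, hs2⟩ := key h (hk' (k - 1))
    have hmem : v (k - 1) ∈ edge v (k - 1) ∩ edge v k := by
      constructor
      · exact left_mem_segment ℝ _ _
      · unfold edge
        rw [segment_symm, segment_eq_image']
        refine ⟨s, hs, ?_⟩
        simp only [Complex.real_smul]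
        rw [hr2 (k + 1), hr2 (k - 1), hr2 k, hs2]
        push_cast
        ring
    rw [hadj'] at hmem
    exact hne2 (hinj hmem)

end final

/-- Let `n ≥ 3`.
1. Every simple polygon with `n` vertices can be carried to a regular polygon by a finite sequence
   of vertex-centroid moves.
2. More generally, every `n`-tuple of points which is not contained in a line can be carried by a
   finite sequence of moves to every `n`-tuple of points (every regular polygon, for example). -/
theorem result (n : ℕ) [NeZero n] (hn : 3 ≤ n) :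
    (∀ v : Fin n → ℂ, IsSimple v → ∃ w : Fin n → ℂ, IsRegular w ∧ ReflTransGen Move v w) ∧
    (∀ v : Fin n → ℂ, ¬ Collinear ℝ (Set.range v) → ∀ w : Fin n → ℂ, ReflTransGen Move v w) := by
  refine ⟨fun v hv => ?_, fun v hv w => reach_all hn (G_of_not_collinear hv) w⟩
  exact ⟨fun k => 0 + 1 * Complex.exp (2 * Real.pi * Complex.I / n) ^ (k : ℕ),
    ⟨0, 1, one_ne_zero, Or.inl fun k => rfl⟩,
    reach_all hn (G_of_not_collinear (not_collinear_of_simple hn hv)) _⟩

end Pool.Agent.Results.MP_06c496_co.AllPolygons
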